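import Pool.Agent.U722.FF.Stm3

/-!
Project LI (helper722), package HQ: homomorphisms to the rational numbers.
-/

set_option autoImplicit false

namespace Pool.Agent.U908.LIP

open U722.FF

/-- the homomorphism to `Multiplicative ℚ` -/
def toHom {H : Type} [Group H] (f : H → ℚ) (hf : ∀ a b, f (a * b) = f a + f b) :
    H →* Multiplicative ℚ :=
  MonoidHom.mk' (fun a => Multiplicative.ofAdd (f a)) (by intro a b; rw [hf, ofAdd_add])

theorem toHom_inj {H : Type} [Group H] {f g : H → ℚ} {hf : ∀ a b, f (a * b) = f a + f b}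
    {hg : ∀ a b, g (a * b) = g a + g b} (h : toHom f hf = toHom g hg) : f = g := by
  funext a
  have := DFunLike.congr_fun h a
  exact Multiplicative.ofAdd.injective this

theorem map_one' {H : Type} [Group H] {f : H → ℚ} (hf : ∀ a b, f (a * b) = f a + f b) :
    f 1 = 0 := by
  have := hf 1 1
  rw [mul_one] at this
  linarith

theorem map_inv' {H : Type} [Group H] {f : H → ℚ} (hf : ∀ a b, f (a * b) = f a + f b) (a : H) :
    f a⁻¹ = - f a := by
  have := hf a a⁻¹
  rw [mul_inv_cancel, map_one' hf] at this
  linarith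

/-- evaluation -/
def ev {H : Type} [Group H] {ι : Type} (x : ι → H) : Hq H →ₗ[ℚ] (ι → ℚ) where
  toFun f i := f.1 (x i)
  map_add' _ _ := rfl
  map_smul' _ _ := rfl

theorem t_HQF : S_HQF := by
  intro H _ hfg
  obtain ⟨S, hS⟩ := (Group.fg_def).1 hfg
  have hinj : Function.Injective (ev (fun s : S => (s : H))) := by
    intro f g h
    apply Subtype.ext
    apply toHom_inj (hf := f.2) (hg := g.2)
    apply MonoidHom.eq_of_eqOn_dense hS
    intro s hs
    have := congr_fun h ⟨s, hs⟩
    exact congrArg Multiplicative.ofAdd this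
  exact Module.Finite.of_injective _ hinj

theorem isFree {G : Type} [Group G]
    (h : ∃ (X : Type) (f : G →* FreeGroup X), Function.Injective f) : IsFreeGroup G := by
  obtain ⟨X, f, hf⟩ := h
  exact IsFreeGroup.ofMulEquiv (MonoidHom.ofInjective hf).symm

theorem t_FRI : S_FRI := by
  intro G _ h hn
  have := isFree h
  by_cases he : IsEmpty (IsFreeGroup.Generators G)
  · exfalso
    obtain ⟨a, b, hab⟩ := hn.exists_pair_ne
    apply hab
    apply (IsFreeGroup.toFreeGroup G).injective
    exact Subsingleton.elim _ _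
  · obtain ⟨x⟩ := not_isEmpty_iff.1 he
    refine ⟨IsFreeGroup.lift (fun _ => Multiplicative.ofAdd (1 : ℤ)), fun h1 => ?_⟩
    have h2 := IsFreeGroup.lift_of (G := G) (fun _ => Multiplicative.ofAdd (1 : ℤ)) x
    rw [h1] at h2
    have h3 : (0 : ℤ) = 1 := Multiplicative.ofAdd.injective h2
    omega

theorem t_QZ : S_QZ := by
  classical
  intro G _ hfg ⟨f, hf, a, ha⟩
  obtain ⟨S, hS⟩ := (Group.fg_def).1 hfg
  let N : ℕ := ∏ s ∈ S, (f s).den
  have hN : N ≠ 0 := Finset.prod_ne_zero_iff.2 fun s _ => (f s).den_nz
  have h1 : ∀ g : G, ∃ z : ℤ, (N : ℚ) * f g = z := by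
    intro g
    have hg : g ∈ Subgroup.closure (S : Set G) := by rw [hS]; trivial
    induction hg using Subgroup.closure_induction with
    | mem x hx =>
      obtain ⟨c, hc⟩ := Finset.dvd_prod_of_mem (fun s => (f s).den) (Finset.mem_coe.1 hx)
      refine ⟨(c : ℤ) * (f x).num, ?_⟩
      have h2 : (N : ℚ) = ((f x).den : ℚ) * c := by
        change ((∏ s ∈ S, (f s).den : ℕ) : ℚ) = _
        rw [hc]; push_cast; ring
      have h3 : ((f x).den : ℚ) * f x = (f x).num := by
        rw [mul_comm]; exact Rat.mul_den_eq_num (f x)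
      rw [h2]
      push_cast
      rw [← h3]
      ring
    | one => exact ⟨0, by rw [map_one' hf]; simp⟩
    | mul x y _ _ hx hy =>
      obtain ⟨u, hu⟩ := hx
      obtain ⟨v, hv⟩ := hy
      exact ⟨u + v, by rw [hf, mul_add, hu, hv]; push_cast; ring⟩
    | inv x _ hx =>
      obtain ⟨u, hu⟩ := hx
      exact ⟨-u, by rw [map_inv' hf, mul_neg, hu]; push_cast; ring⟩
  choose F hF using h1
  refine ⟨MonoidHom.mk' (fun g => Multiplicative.ofAdd (F g)) ?_, fun h2 => ?_⟩
  · intro x y
    rw [← ofAdd_add]
    congr 1
    have : ((F (x * y) : ℤ) : ℚ) = ((F x + F y : ℤ) : ℚ) := by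
      rw [← hF, hf]; push_cast; rw [← hF, ← hF]; ring
    exact_mod_cast this
  · have h3 := DFunLike.congr_fun h2 a
    have h4 : F a = 0 := Multiplicative.ofAdd.injective h3
    have h5 := hF a
    rw [h4] at h5
    have h6 : (N : ℚ) ≠ 0 := by exact_mod_cast hN
    simp [h6, ha] at h5

/-- A nonzero homomorphism to `ℤ` gives positive dimension. -/
theorem pos_of_ind {H : Type} [Group H] (hfg : Group.FG H) (h : Ind H) :
    0 < Module.finrank ℚ (Hq H) := by
  have := t_HQF H hfg
  obtain ⟨f, hf⟩ := h
  have h1 : ∃ a, f a ≠ 1 := by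
    by_contra h2
    push Not at h2
    exact hf (MonoidHom.ext h2)
  obtain ⟨a, ha⟩ := h1
  let g : Hq H := ⟨fun x => ((Multiplicative.toAdd (f x) : ℤ) : ℚ), by
    intro x y
    simp only [map_mul, toAdd_mul]
    push_cast
    ring⟩
  have hg : g ≠ 0 := by
    intro h0
    have h3 : g.1 a = 0 := by rw [h0]; rfl
    have h3' : ((Multiplicative.toAdd (f a) : ℤ) : ℚ) = 0 := h3
    have h4 : (Multiplicative.toAdd (f a) : ℤ) = 0 := by exact_mod_cast h3'
    exact ha (Multiplicative.toAdd.injective h4)
  have : Nontrivial (Hq H) := ⟨⟨g, 0, hg⟩⟩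
  exact Module.finrank_pos

/-- Finitely generated nontrivial torsion-free abelian groups are indicable. -/
theorem ab_ind {H : Type} [CommGroup H] (hfg : Group.FG H) (ht : NoTor H) (hn : Nontrivial H) :
    Ind H := by
  have hfin : Module.Finite ℤ (Additive H) := by
    rw [Module.Finite.iff_addGroup_fg]
    exact GroupFG.iff_add_fg.1 hfg
  have htf : Module.IsTorsionFree ℤ (Additive H) := by
    apply Module.IsTorsionFree.of_smul_eq_zero
    intro r m hrm
    by_cases hr : r = 0
    · exact Or.inl hr
    · right
      have h1 : (r.natAbs : ℕ) • m = 0 := by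
        rcases Int.natAbs_eq r with h | h
        · rw [h, natCast_zsmul] at hrm
          exact hrm
        · rw [h, neg_smul, natCast_zsmul, neg_eq_zero] at hrm
          exact hrm
      exact ht m.toMul r.natAbs (Int.natAbs_pos.2 hr) h1
  have hfree : Module.Free ℤ (Additive H) := Module.free_of_finite_type_torsion_free'
  have b := Module.Free.chooseBasis ℤ (Additive H)
  have : Nontrivial (Additive H) := hn
  obtain ⟨i⟩ := b.index_nonempty
  refine ⟨MonoidHom.mk' (fun g => Multiplicative.ofAdd (b.coord i (Additive.ofMul g))) ?_, ?_⟩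
  · intro x y
    rw [ofMul_mul, map_add, ofAdd_add]
  · intro h
    have h1 := DFunLike.congr_fun h (Additive.toMul (b i))
    have h2 : b.coord i (b i) = 0 := Multiplicative.ofAdd.injective h1
    simp at h2

theorem t_HQP : S_HQP := by
  intro H _ ⟨hfg, ht, h⟩ hn
  apply pos_of_ind hfg
  rcases h with h | h
  · let _ : CommGroup H := { (inferInstance : Group H) with mul_comm := h }
    exact ab_ind hfg ht hn
  · exact t_FRI H h hn

/-- extension of homomorphisms to `ℚ` -/
theorem ext_ab {K H : Type} [CommGroup K] [CommGroup H] (j : K →* H) (hj : Function.Injective j)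
    (f : K → ℚ) (hf : ∀ a b, f (a * b) = f a + f b) :
    ∃ g : H → ℚ, (∀ a b, g (a * b) = g a + g b) ∧ ∀ a, g (j a) = f a := by
  obtain ⟨g, hg⟩ := (Module.Baer.of_divisible ℚ).extension_property_addMonoidHom
    (MonoidHom.toAdditive j) hj
    (AddMonoidHom.mk' (fun a : Additive K => f a.toMul) (fun a b => hf _ _))
  refine ⟨fun a => g (Additive.ofMul a), fun a b => ?_, fun a => ?_⟩
  · exact map_add g (Additive.ofMul a) (Additive.ofMul b)
  · exact DFunLike.congr_fun hg (Additive.ofMul a)

/-- restriction -/
def res {K H : Type} [Group K] [Group H] (j : K →* H) : Hq H →ₗ[ℚ] Hq K where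
  toFun f := ⟨fun a => f.1 (j a), fun a b => by
    have := f.2 (j a) (j b)
    rw [← map_mul] at this
    exact this⟩
  map_add' _ _ := rfl
  map_smul' _ _ := rfl

theorem t_HQL : S_HQL := by
  intro K H _ _ j hj hH hK
  have hH' := hH
  obtain ⟨hfg, ht, h⟩ := hH
  obtain ⟨kfg, kt, kab⟩ := hK
  have hfH := t_HQF H hfg
  have hfK := t_HQF K kfg
  rcases h with h | h
  · let _ : CommGroup H := { (inferInstance : Group H) with mul_comm := h }
    let _ : CommGroup K := { (inferInstance : Group K) with mul_comm := kab }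
    have hs : Function.Surjective (res j) := by
      intro f
      obtain ⟨g, hg, hgj⟩ := ext_ab j hj f.1 f.2
      exact ⟨⟨g, hg⟩, Subtype.ext (funext hgj)⟩
    exact LinearMap.finrank_le_finrank_of_surjective hs
  · have hKf : IsFreeGroup K := by
      obtain ⟨X, f, hf⟩ := h
      exact isFree ⟨X, f.comp j, hf.comp hj⟩
    have hsub : Subsingleton (IsFreeGroup.Generators K) := by
      refine ⟨fun x y => ?_⟩
      by_contra hxy
      have h1 := kab ((IsFreeGroup.toFreeGroup K).symm (FreeGroup.of x))
        ((IsFreeGroup.toFreeGroup K).symm (FreeGroup.of y))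
      rw [← map_mul, ← map_mul] at h1
      have h2 := (IsFreeGroup.toFreeGroup K).symm.injective h1
      classical
      have h3 := congrArg (FreeGroup.lift fun z => if z = x then Equiv.swap (0 : Fin 3) 1
        else Equiv.swap 1 2) h2
      rw [map_mul, map_mul, FreeGroup.lift_apply_of, FreeGroup.lift_apply_of, if_pos rfl,
        if_neg (Ne.symm hxy)] at h3
      revert h3
      decide
    have hinj : Function.Injective (ev (IsFreeGroup.of (G := K))) := by
      intro f g hfg'
      apply Subtype.ext
      apply toHom_inj (hf := f.2) (hg := g.2)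
      apply IsFreeGroup.ext_hom
      intro a
      exact congrArg Multiplicative.ofAdd (congr_fun hfg' a)
    have hle : Module.finrank ℚ (Hq K) ≤ 1 := by
      have := Finite.of_subsingleton (α := IsFreeGroup.Generators K)
      have := Fintype.ofFinite (IsFreeGroup.Generators K)
      have h1 := LinearMap.finrank_le_finrank_of_injective hinj
      rw [Module.finrank_fintype_fun_eq_card] at h1
      exact h1.trans (Fintype.card_le_one_iff_subsingleton.2 hsub)
    rcases subsingleton_or_nontrivial K with hk | hk
    · have h0 : Module.finrank ℚ (Hq K) = 0 := by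
        have : Subsingleton (Hq K) := by
          refine ⟨fun f g => Subtype.ext (funext fun a => ?_)⟩
          rw [Subsingleton.elim a 1]
          exact (map_one' f.2).trans (map_one' g.2).symm
        exact Module.finrank_zero_of_subsingleton
      omega
    · have : Nontrivial H := hj.nontrivial
      have := t_HQP H hH' this
      omega

end Pool.Agent.U908.LIP
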